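import Pool.Agent.W2helper44.OT.Stm

/-!
# Project OT, piece TOT: combinatorics of sums of truncated counts
-/

set_option autoImplicit false

namespace Pool.Agent.W2helper28.OT

open Pool.Agent.W2helper44.OT

lemma le_tot_one {R : ℕ} {T : Finset ℕ} {r : ℕ → ℕ} {t : ℕ} (ht : t ∈ T) (hR : r t ≤ R) :
    r t ≤ tot R T r 1 := by
  have h1 : ∑ j ∈ Finset.range (r t), 1 ≤
      ∑ j ∈ Finset.range (r t), min 1 (T.filter fun t => j < r t).card := by
    refine Finset.sum_le_sum fun j hj => ?_
    have h2 : 0 < (T.filter fun t => j < r t).card :=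
      Finset.card_pos.2 ⟨t, Finset.mem_filter.2 ⟨ht, Finset.mem_range.1 hj⟩⟩
    omega
  rw [Finset.sum_const, Finset.card_range, smul_eq_mul, mul_one] at h1
  refine h1.trans ?_
  exact Finset.sum_le_sum_of_subset (Finset.range_mono hR)

lemma tot_insert {R : ℕ} {T : Finset ℕ} {r : ℕ → ℕ} {t₀ : ℕ} (h0 : t₀ ∉ T) (hR : r t₀ ≤ R)
    (hT : ∀ t ∈ T, r t ≤ R) (h1 : tot R T r 1 ≤ r t₀) (k : ℕ) :
    tot R (insert t₀ T) r (k + 1) = r t₀ + tot R T r k := by
  have hmax : ∀ t ∈ T, r t ≤ r t₀ := fun t ht => (le_tot_one ht (hT t ht)).trans h1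
  have hcount : r t₀ = ∑ j ∈ Finset.range R, if j < r t₀ then 1 else 0 := by
    rw [← Finset.card_filter]
    have : (Finset.range R).filter (fun j => j < r t₀) = Finset.range (r t₀) := by
      ext j
      simp only [Finset.mem_filter, Finset.mem_range]
      omega
    rw [this, Finset.card_range]
  unfold tot
  conv_rhs => rw [hcount]
  rw [← Finset.sum_add_distrib]
  refine Finset.sum_congr rfl fun j _ => ?_
  rw [Finset.filter_insert]
  by_cases hj : j < r t₀
  · rw [if_pos hj, if_pos hj, Finset.card_insert_of_notMem (fun h => h0 (Finset.mem_filter.1 h).1)]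
    omega
  · rw [if_neg hj, if_neg hj]
    have he : (T.filter fun t => j < r t) = ∅ := by
      refine Finset.filter_eq_empty_iff.2 fun t ht h => hj (h.trans_le (hmax t ht))
    rw [he, Finset.card_empty]
    omega

theorem p_TOT : P_TOT := by
  refine ⟨fun R T r t₀ h0 hR hT h1 k => tot_insert h0 hR hT h1 k, fun R T r => ?_,
    fun R R' T r hRR hT k => ?_⟩
  · unfold tot
    exact Finset.sum_eq_zero fun j _ => Nat.zero_min _
  · unfold tot
    symm
    refine Finset.sum_subset (Finset.range_mono hRR) fun j _ hj => ?_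
    have he : (T.filter fun t => j < r t) = ∅ := by
      refine Finset.filter_eq_empty_iff.2 fun t ht h => hj ?_
      exact Finset.mem_range.2 (h.trans_le (hT t ht))
    rw [he, Finset.card_empty]
    exact Nat.min_zero _

end Pool.Agent.W2helper28.OT
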